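import Pool.Agent.H84.KBOX.Stmts

/-!
# Row GSC of the board kbx: frames and good scales
-/

set_option autoImplicit false

namespace Pool.Agent.H39.KBX

open Finset Real MeasureTheory
open Pool.Agent.H49.Ent Pool.Agent.H32.Dense Pool.STK Pool.KAF Pool.KAL Pool.KS3 Pool.KBX

/-- A coarser cell is a function of a finer one. -/
lemma cel_det {n : ℕ} {Ξ : Type} (pos : Ξ → Option (Fin n) → ℕ) {a a' : ℕ} (h : a ≤ a')
    {ξ ξ' : Ξ} (he : cel (2 ^ a) pos ξ = cel (2 ^ a) pos ξ') :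
    cel (2 ^ a') pos ξ = cel (2 ^ a') pos ξ' := by
  funext o
  have h1 : pos ξ o / 2 ^ a = pos ξ' o / 2 ^ a := congrFun he o
  show pos ξ o / 2 ^ a' = pos ξ' o / 2 ^ a'
  have h2 : 2 ^ a' = 2 ^ a * 2 ^ (a' - a) := by
    rw [← pow_add]
    congr 1
    omega
  rw [h2, ← Nat.div_div_eq_div_mul, ← Nat.div_div_eq_div_mul, h1]

/-- A telescoping sum. -/
lemma tele (g : ℕ → ℝ) (hg : ∀ i, 0 ≤ g i) (I K : ℕ) :
    ∑ i ∈ range I, (g i - g (i + K)) ≤ ∑ i ∈ range K, g i := by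
  rw [Finset.sum_sub_distrib]
  have h1 : ∑ i ∈ range (K + I), g i = ∑ i ∈ range K, g i + ∑ i ∈ range I, g (K + i) :=
    Finset.sum_range_add g K I
  have h2 : ∑ i ∈ range I, g i ≤ ∑ i ∈ range (K + I), g i :=
    Finset.sum_le_sum_of_subset_of_nonneg
      (Finset.range_subset_range.mpr (by omega)) fun i _ _ => hg i
  have h3 : ∑ i ∈ range I, g (i + K) = ∑ i ∈ range I, g (K + i) :=
    Finset.sum_congr rfl fun i _ => by rw [add_comm]
  rw [h3]
  linarith

/-- The entropy of the rounded frame. -/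
lemma CH_fr_le {n : ℕ} {W S : Type} [Fintype W] {q : W → ℝ} (hq : IsLaw q) (b : ℕ) {C₀ : ℝ}
    (hC₀ : 1 ≤ C₀) (V : W → Fin n → Fin n → ℝ) (hV : ∀ w, 0 < q w → ∀ j i, |V w j i| ≤ C₀)
    (Y : W → S) :
    CH q (fun w => fr b (V w)) Y ≤ n * (n * (b * Real.log 2 + Real.log (2 * C₀ + 2))) := by
  classical
  set Fs : Finset (Fin n → Fin n → ℤ) := Fintype.piFinset fun _ => Fintype.piFinset fun _ =>
    Finset.Icc ⌊-((2 : ℝ) ^ b * C₀)⌋ ⌊(2 : ℝ) ^ b * C₀⌋ with hFs
  have hmem : ∀ w, 0 < q w → fr b (V w) ∈ Fs := by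
    intro w hw
    rw [hFs, Fintype.mem_piFinset]
    intro j
    rw [Fintype.mem_piFinset]
    intro i
    rw [Finset.mem_Icc]
    have h := abs_le.mp (hV w hw j i)
    have h2 : (0 : ℝ) < 2 ^ b := by positivity
    constructor
    · exact Int.floor_le_floor (by nlinarith [h.1])
    · exact Int.floor_le_floor (by nlinarith [h.2])
  have h1 := CH_le_card hq.nonneg hq.sum_one (fun w => fr b (V w)) Y (fun _ => Fs) hmem
  have hpow : (1 : ℝ) ≤ 2 ^ b := one_le_pow₀ (by norm_num)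
  have hcard1 : ((Finset.Icc ⌊-((2 : ℝ) ^ b * C₀)⌋ ⌊(2 : ℝ) ^ b * C₀⌋).card : ℝ) ≤
      2 ^ b * (2 * C₀ + 2) := by
    rw [Int.card_Icc]
    have h6 : 0 ≤ ⌊(2 : ℝ) ^ b * C₀⌋ := Int.floor_nonneg.mpr (by positivity)
    have h7 : ⌊-((2 : ℝ) ^ b * C₀)⌋ ≤ 0 := by
      have : -((2 : ℝ) ^ b * C₀) ≤ 0 := by nlinarith
      exact_mod_cast (Int.floor_le _).trans this
    have h8 : ((⌊(2 : ℝ) ^ b * C₀⌋ + 1 - ⌊-((2 : ℝ) ^ b * C₀)⌋).toNat : ℤ) =
        ⌊(2 : ℝ) ^ b * C₀⌋ + 1 - ⌊-((2 : ℝ) ^ b * C₀)⌋ := Int.toNat_of_nonneg (by linarith)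
    have h9 : ((⌊(2 : ℝ) ^ b * C₀⌋ + 1 - ⌊-((2 : ℝ) ^ b * C₀)⌋).toNat : ℝ) =
        ⌊(2 : ℝ) ^ b * C₀⌋ + 1 - ⌊-((2 : ℝ) ^ b * C₀)⌋ := by exact_mod_cast h8
    rw [h9]
    have e1 := Int.floor_le ((2 : ℝ) ^ b * C₀)
    have e2 := Int.lt_floor_add_one (-((2 : ℝ) ^ b * C₀))
    nlinarith
  have hcard : (Fs.card : ℝ) ≤ ((2 ^ b * (2 * C₀ + 2)) ^ n) ^ n := by
    rw [hFs, Fintype.card_piFinset]
    push_cast
    have : ∀ j : Fin n, (((Fintype.piFinset fun _ : Fin n =>
        Finset.Icc ⌊-((2 : ℝ) ^ b * C₀)⌋ ⌊(2 : ℝ) ^ b * C₀⌋).card : ℕ) : ℝ) ≤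
        (2 ^ b * (2 * C₀ + 2)) ^ n := by
      intro _
      rw [Fintype.card_piFinset]
      push_cast
      calc ∏ _i : Fin n, ((Finset.Icc ⌊-((2 : ℝ) ^ b * C₀)⌋ ⌊(2 : ℝ) ^ b * C₀⌋).card : ℝ) ≤
          ∏ _i : Fin n, (2 ^ b * (2 * C₀ + 2)) :=
            Finset.prod_le_prod (fun _ _ => Nat.cast_nonneg _) fun _ _ => hcard1
        _ = (2 ^ b * (2 * C₀ + 2)) ^ n := by simp
    calc ∏ j : Fin n, (((Fintype.piFinset fun _ : Fin n =>
        Finset.Icc ⌊-((2 : ℝ) ^ b * C₀)⌋ ⌊(2 : ℝ) ^ b * C₀⌋).card : ℕ) : ℝ) ≤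
        ∏ _j : Fin n, (2 ^ b * (2 * C₀ + 2)) ^ n :=
          Finset.prod_le_prod (fun _ _ => Nat.cast_nonneg _) fun j _ => this j
      _ = ((2 ^ b * (2 * C₀ + 2)) ^ n) ^ n := by simp
  obtain ⟨w₀, hw₀⟩ : ∃ w, 0 < q w := by
    by_contra hcon
    push Not at hcon
    have : ∑ w, q w = 0 := Finset.sum_eq_zero fun w _ => le_antisymm (hcon w) (hq.nonneg w)
    rw [hq.sum_one] at this
    norm_num at this
  have hpos : (0 : ℝ) < Fs.card := by exact_mod_cast Finset.card_pos.mpr ⟨_, hmem w₀ hw₀⟩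
  have h2 : Ex q (fun _ => Real.log (Fs.card)) = Real.log (Fs.card) := by
    unfold Ex
    rw [← Finset.sum_mul, hq.sum_one, one_mul]
  refine h1.trans (h2.le.trans ?_)
  refine (Real.log_le_log hpos hcard).trans (le_of_eq ?_)
  rw [Real.log_pow, Real.log_pow, Real.log_mul (by positivity) (by positivity), Real.log_pow]

theorem gsc_thm : GSCStmt := by
  classical
  intro n C₀ hC₀
  refine ⟨n * (n * (Real.log 2 + Real.log (2 * C₀ + 2))) + 1, ?_, ?_⟩
  · have h1 : 0 ≤ Real.log 2 := Real.log_nonneg (by norm_num)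
    have h2 : 0 ≤ Real.log (2 * C₀ + 2) := Real.log_nonneg (by linarith)
    have : 0 ≤ (n : ℝ) * (n * (Real.log 2 + Real.log (2 * C₀ + 2))) := by positivity
    linarith
  intro Ω Λ Ξ _ p lam x T pos A B i₀ L δ ε hleaf hδ hε hncf
  have hp := hleaf.isLaw
  obtain ⟨W, iW, q, o, f, hq, ho, hf, hz, hdet⟩ := MKC.copies hp x
    (fun ω (i : Fin n) => B (lam ω) (some i)) (fun _ => ε) hδ (fun _ => hε)
    (by unfold Ex; rw [← Finset.sum_mul, hp.sum_one, one_mul])
    (fun ω hω u hu => hncf ω hω u hu) n le_rfl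
  refine ⟨W, iW, q, fun j => f j, hq, fun j => hf j j.2, ?_, ?_, ?_⟩
  · intro w hw j
    rw [hz w hw j j.2, hz w hw i₀ i₀.2]
  · refine le_trans (le_of_eq ?_) hdet
    unfold Pr law
    refine Finset.sum_congr rfl fun w _ => ?_
    have e1 : Matrix.det (Matrix.of fun i j : Fin n =>
        MKC.vx ((fun ω (i : Fin n) => B (lam ω) (some i)) (f j w)) i) =
        Matrix.det (Matrix.of fun j i : Fin n => B (lam (f j w)) (some i)) := by
      rw [← Matrix.det_transpose]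
      congr 1
      ext j i
      simp only [Matrix.transpose_apply, Matrix.of_apply, MKC.vx, i.2, dite_true]
    rw [e1]
    simp only [Set.mem_ofPred_eq, eq_iff_iff, iff_true]
  · intro m K I b θ hm hK hb hI hθ
    set V : W → Fin n → Fin n → ℝ := fun w j i => B (lam (f j w)) (some i) with hV
    set g : ℕ → ℝ := fun i =>
      CH q (fun w => fr b (V w)) (fun w => cel (2 ^ (L - m * i)) pos (x (f i₀ w))) with hg
    have hg0 : ∀ i, 0 ≤ g i := fun i => CH_nonneg hq.nonneg _ _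
    have hJ : ∀ i, JJ L (m * i) b lam x pos B i₀ q (fun j => f j) = g i - g (i + K) := by
      intro i
      have e : m * i + b = m * (i + K) := by rw [hb]; ring
      unfold JJ
      rw [e]
    have hmono : ∀ i, g (i + K) ≤ g i := by
      intro i
      refine CH_mono_cond hq.nonneg ?_
      intro w w' _ _ h
      exact cel_det pos (Nat.sub_le_sub_left (Nat.mul_le_mul_left m (Nat.le_add_right i K)) L) h
    have hub : ∀ i, g i ≤ n * (n * (b * Real.log 2 + Real.log (2 * C₀ + 2))) := by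
      intro i
      exact CH_fr_le hq b hC₀ V (fun w _ j i => hleaf.B_le (f j w) (some i)) _
    have hb1 : 1 ≤ b := by rw [hb]; exact Nat.mul_pos hK hm
    have hbR : (1 : ℝ) ≤ b := by exact_mod_cast hb1
    have hlog : 0 ≤ Real.log (2 * C₀ + 2) := Real.log_nonneg (by linarith)
    have hsum : ∑ i ∈ range I, (g i - g (i + K)) ≤
        K * (n * (n * (b * (Real.log 2 + Real.log (2 * C₀ + 2))))) := by
      refine (tele g hg0 I K).trans ?_
      refine (Finset.sum_le_sum fun i _ => hub i).trans ?_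
      rw [Finset.sum_const, Finset.card_range, nsmul_eq_mul]
      have : (b : ℝ) * Real.log 2 + Real.log (2 * C₀ + 2) ≤
          b * (Real.log 2 + Real.log (2 * C₀ + 2)) := by nlinarith
      gcongr
    have hcount : (((range I).filter fun i =>
        θ * b < JJ L (m * i) b lam x pos B i₀ q (fun j => f j)).card : ℝ) * (θ * b) ≤
        ∑ i ∈ range I, (g i - g (i + K)) := by
      rw [← nsmul_eq_mul, ← Finset.sum_const]
      calc ∑ _i ∈ (range I).filter (fun i =>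
            θ * b < JJ L (m * i) b lam x pos B i₀ q (fun j => f j)), θ * (b : ℝ) ≤
          ∑ i ∈ (range I).filter (fun i =>
            θ * b < JJ L (m * i) b lam x pos B i₀ q (fun j => f j)), (g i - g (i + K)) := by
            refine Finset.sum_le_sum fun i hi => ?_
            have := (Finset.mem_filter.mp hi).2
            rw [hJ i] at this
            exact this.le
        _ ≤ ∑ i ∈ range I, (g i - g (i + K)) :=
            Finset.sum_le_sum_of_subset_of_nonneg (Finset.filter_subset _ _)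
              fun i _ _ => sub_nonneg.mpr (hmono i)
    have hfin := hcount.trans hsum
    set N : ℝ := (((range I).filter fun i =>
        θ * b < JJ L (m * i) b lam x pos B i₀ q (fun j => f j)).card : ℝ) with hN
    have hK' : (0 : ℝ) ≤ K := Nat.cast_nonneg _
    have h5 : N * θ * b ≤ (K * (n * (n * (Real.log 2 + Real.log (2 * C₀ + 2))))) * b := by
      calc N * θ * b = N * (θ * b) := by ring
        _ ≤ K * (n * (n * (b * (Real.log 2 + Real.log (2 * C₀ + 2))))) := hfin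
        _ = (K * (n * (n * (Real.log 2 + Real.log (2 * C₀ + 2))))) * b := by ring
    have h6 := le_of_mul_le_mul_right h5 (by linarith)
    calc N * θ ≤ K * (n * (n * (Real.log 2 + Real.log (2 * C₀ + 2)))) := h6
      _ ≤ (n * (n * (Real.log 2 + Real.log (2 * C₀ + 2))) + 1) * K := by nlinarith

end Pool.Agent.H39.KBX
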